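import Mathlib

/-! The basis `b(k,l) = C(k,l) C(k+l,l)` and products. -/

namespace Pool.Agent.Q33.Del

open Finset

/-- `C(k,l) C(k+l,l)` -/
def b (k l : ℕ) : ℤ := (k.choose l : ℤ) * ((k + l).choose l : ℤ)

theorem b_zero_of_lt {k l : ℕ} (h : k < l) : b k l = 0 := by
  unfold b
  rw [Nat.choose_eq_zero_of_lt h]
  simp

theorem choose_succ_mul (n k : ℕ) :
    ((n + 1).choose k : ℤ) * ((n : ℤ) + 1 - k) = (n.choose k : ℤ) * ((n : ℤ) + 1) := by
  rcases Nat.lt_or_ge (n + 1) k with h | h
  · rw [Nat.choose_eq_zero_of_lt h, Nat.choose_eq_zero_of_lt (by omega)]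
    simp
  · have h1 := Nat.choose_mul_succ_eq n k
    have h3 : (((n + 1 - k : ℕ)) : ℤ) = (n : ℤ) + 1 - k := by
      push_cast [Nat.cast_sub h]
      ring
    rw [← h3]
    exact_mod_cast h1.symm

theorem choose_mul_succ_right (n k : ℕ) :
    (n.choose (k + 1) : ℤ) * ((k : ℤ) + 1) = (n.choose k : ℤ) * ((n : ℤ) - k) := by
  rcases Nat.lt_or_ge n k with h | h
  · rw [Nat.choose_eq_zero_of_lt h, Nat.choose_eq_zero_of_lt (by omega)]
    simp
  · have h1 := Nat.choose_succ_right_eq n k
    have h3 : (((n - k : ℕ)) : ℤ) = (n : ℤ) - k := by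
      push_cast [Nat.cast_sub h]
      ring
    rw [← h3]
    exact_mod_cast h1

theorem b_succ_left (k l : ℕ) :
    b (k + 1) l * ((k : ℤ) + 1 - l) = b k l * ((k : ℤ) + 1 + l) := by
  have h1 := choose_succ_mul k l
  have h2 := choose_succ_mul (k + l) l
  push_cast at h2
  have h2' : ((k + 1 + l).choose l : ℤ) * ((k : ℤ) + 1) = ((k + l).choose l : ℤ) * ((k : ℤ) + l + 1) := by
    rw [show k + 1 + l = k + l + 1 by ring]
    linear_combination h2
  unfold b
  have hk : ((k : ℤ) + 1) ≠ 0 := by positivity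
  apply mul_left_cancel₀ hk
  linear_combination ((k + 1 + l).choose l : ℤ) * ((k : ℤ) + 1) * h1
    + (k.choose l : ℤ) * ((k : ℤ) + 1) * h2'

theorem b_succ_right (k l : ℕ) :
    ((l : ℤ) + 1) ^ 2 * b k (l + 1) = ((k : ℤ) - l) * ((k : ℤ) + l + 1) * b k l := by
  have h1 := choose_mul_succ_right k l
  have h2 : ((k + (l + 1)).choose (l + 1) : ℤ) * ((l : ℤ) + 1)
      = ((k + l).choose l : ℤ) * ((k : ℤ) + l + 1) := by
    have := Nat.add_one_mul_choose_eq (k + l) l
    rw [show k + (l + 1) = k + l + 1 by ring]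
    have h : (((k + l + 1) * (k + l).choose l : ℕ) : ℤ) = (((k + l + 1).choose (l + 1) * (l + 1) : ℕ) : ℤ) := by
      exact_mod_cast this
    push_cast at h
    linear_combination -h
  unfold b
  linear_combination ((k + (l + 1)).choose (l + 1) : ℤ) * ((l : ℤ) + 1) * h1
    + (k.choose l : ℤ) * ((k : ℤ) - l) * h2

/-- `C(l,i) C(l,j) C(i+j,l)` -/
def E (i j l : ℕ) : ℤ := (l.choose i : ℤ) * (l.choose j : ℤ) * ((i + j).choose l : ℤ)

theorem E_succ (i j l : ℕ) :
    E i j (l + 1) * (((l : ℤ) + 1 - i) * ((l : ℤ) + 1 - j)) = E i j l * (((l : ℤ) + 1) * ((i : ℤ) + j - l)) := by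
  have h1 := choose_succ_mul l i
  have h2 := choose_succ_mul l j
  have h3 := choose_mul_succ_right (i + j) l
  push_cast at h3
  unfold E
  have hk : ((l : ℤ) + 1) ≠ 0 := by positivity
  apply mul_left_cancel₀ hk
  linear_combination ((l + 1).choose j : ℤ) * ((l : ℤ) + 1 - j) * ((i + j).choose (l + 1) : ℤ) * ((l : ℤ) + 1) * h1
    + (l.choose i : ℤ) * ((l : ℤ) + 1) * ((i + j).choose (l + 1) : ℤ) * ((l : ℤ) + 1) * h2
    + (l.choose i : ℤ) * (l.choose j : ℤ) * ((l : ℤ) + 1) ^ 2 * h3

theorem tele (k i j n : ℕ) :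
    ∑ l ∈ range n, ((((k : ℚ) + 1 - i) * ((k : ℚ) + 1 - j)) * ((b (k + 1) l : ℤ) : ℚ) * ((E i j l : ℤ) : ℚ)
      - (((k : ℚ) + 1 + i) * ((k : ℚ) + 1 + j)) * ((b k l : ℤ) : ℚ) * ((E i j l : ℤ) : ℚ))
    = -2 * ((n : ℚ) * (n - i) * (n - j) * (((b (k + 1) n : ℤ) : ℚ) / ((k : ℚ) + 1 + n)) * ((E i j n : ℤ) : ℚ)) := by
  induction n with
  | zero => simp
  | succ n ih =>
    rw [sum_range_succ, ih]
    have hb1 : ((b (k + 1) n : ℤ) : ℚ) * ((k : ℚ) + 1 - n) = ((b k n : ℤ) : ℚ) * ((k : ℚ) + 1 + n) := by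
      exact_mod_cast b_succ_left k n
    have hb2 : ((n : ℚ) + 1) ^ 2 * ((b (k + 1) (n + 1) : ℤ) : ℚ)
        = (((k : ℚ) + 1) - n) * (((k : ℚ) + 1) + n + 1) * ((b (k + 1) n : ℤ) : ℚ) := by
      have := b_succ_right (k + 1) n
      push_cast at this
      exact_mod_cast this
    have hE : ((E i j (n + 1) : ℤ) : ℚ) * (((n : ℚ) + 1 - i) * ((n : ℚ) + 1 - j))
        = ((E i j n : ℤ) : ℚ) * (((n : ℚ) + 1) * ((i : ℚ) + j - n)) := by
      exact_mod_cast E_succ i j n
    have p1 : ((k : ℚ) + 1 + n) ≠ 0 := by positivity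
    have p2 : ((k : ℚ) + 1 + (n + 1)) ≠ 0 := by positivity
    have p3 : ((n : ℚ) + 1) ≠ 0 := by positivity
    set B := ((b (k + 1) n : ℤ) : ℚ)
    set B' := ((b (k + 1) (n + 1) : ℤ) : ℚ)
    set B0 := ((b k n : ℤ) : ℚ)
    set F := ((E i j n : ℤ) : ℚ)
    set F' := ((E i j (n + 1) : ℤ) : ℚ)
    have e1 : B0 = B * ((k : ℚ) + 1 - n) / ((k : ℚ) + 1 + n) := by
      field_simp
      linear_combination -hb1
    have e2 : B' = (((k : ℚ) + 1) - n) * (((k : ℚ) + 1) + n + 1) * B / ((n : ℚ) + 1) ^ 2 := by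
      field_simp
      linear_combination hb2
    push_cast
    have e3 : ((n : ℚ) + 1) * ((n : ℚ) + 1 - i) * ((n : ℚ) + 1 - j) * (B' / ((k : ℚ) + 1 + (n + 1))) * F'
        = ((n : ℚ) + 1) * (B' / ((k : ℚ) + 1 + (n + 1))) * (F * (((n : ℚ) + 1) * ((i : ℚ) + j - n))) := by
      rw [← hE]
      ring
    rw [e3, e1, e2]
    field_simp
    ring

theorem b_mul (k i j : ℕ) :
    b k i * b k j = ∑ l ∈ range (i + j + 1), b k l * E i j l := by
  induction k with
  | zero =>
    rcases Nat.eq_zero_or_pos i with rfl | hi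
    · rcases Nat.eq_zero_or_pos j with rfl | hj
      · simp [b, E]
      · rw [b_zero_of_lt hj, mul_zero]
        symm
        apply sum_eq_zero
        intro l _
        rcases Nat.eq_zero_or_pos l with rfl | hl
        · unfold E
          rw [Nat.choose_eq_zero_of_lt hj]
          simp
        · rw [b_zero_of_lt hl, zero_mul]
    · rw [b_zero_of_lt hi, zero_mul]
      symm
      apply sum_eq_zero
      intro l _
      rcases Nat.eq_zero_or_pos l with rfl | hl
      · unfold E
        rw [Nat.choose_eq_zero_of_lt hi]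
        simp
      · rw [b_zero_of_lt hl, zero_mul]
  | succ k ih =>
    -- the case `k + 1 = max i j` handled directly
    by_cases h : k + 1 = i ∨ k + 1 = j
    · by_cases hlt : k + 1 < i ∨ k + 1 < j
      · have hz : b (k + 1) i * b (k + 1) j = 0 := by
          rcases hlt with h' | h'
          · rw [b_zero_of_lt h', zero_mul]
          · rw [b_zero_of_lt h', mul_zero]
        rw [hz]
        symm
        apply sum_eq_zero
        intro l _
        rcases Nat.lt_or_ge (k + 1) l with h1 | h1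
        · rw [b_zero_of_lt h1, zero_mul]
        · unfold E
          rcases hlt with h' | h'
          · rw [Nat.choose_eq_zero_of_lt (show l < i by omega)]
            simp
          · rw [Nat.choose_eq_zero_of_lt (show l < j by omega)]
            simp
      · push Not at hlt
        obtain ⟨hi, hj⟩ := hlt
        rw [sum_eq_single (k + 1)]
        · rcases h with h | h
          · subst h
            unfold b E
            rw [Nat.choose_self, show (k + 1 + j).choose (k + 1) = (k + 1 + j).choose j from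
              (Nat.choose_symm_of_eq_add (by omega))]
            push_cast
            ring
          · subst h
            unfold b E
            rw [Nat.choose_self, show (i + (k + 1)).choose (k + 1) = (k + 1 + i).choose i by
              rw [Nat.add_comm i (k + 1)]
              exact Nat.choose_symm_of_eq_add (by omega)]
            push_cast
            ring
        · intro l _ hl
          rcases Nat.lt_or_ge (k + 1) l with h1 | h1
          · rw [b_zero_of_lt h1, zero_mul]
          · unfold E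
            rcases h with h | h
            · rw [Nat.choose_eq_zero_of_lt (show l < i by omega)]
              simp
            · rw [Nat.choose_eq_zero_of_lt (show l < j by omega)]
              simp
        · intro hn
          rw [mem_range, not_lt] at hn
          omega
    · push Not at h
      have ht := tele k i j (i + j + 1)
      have hE0 : E i j (i + j + 1) = 0 := by
        unfold E
        rw [Nat.choose_eq_zero_of_lt (show i + j < i + j + 1 by omega)]
        simp
      rw [hE0] at ht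
      simp only [Int.cast_zero, mul_zero] at ht
      rw [sum_sub_distrib] at ht
      have ht' : (((k : ℚ) + 1 - i) * ((k : ℚ) + 1 - j)) * ((∑ l ∈ range (i + j + 1), b (k + 1) l * E i j l : ℤ) : ℚ)
          = (((k : ℚ) + 1 + i) * ((k : ℚ) + 1 + j)) * ((∑ l ∈ range (i + j + 1), b k l * E i j l : ℤ) : ℚ) := by
        push_cast
        rw [mul_sum, mul_sum]
        simp only [← mul_assoc]
        linear_combination ht
      rw [← ih] at ht'
      have h1 : ((b (k + 1) i : ℤ) : ℚ) * ((k : ℚ) + 1 - i) = ((b k i : ℤ) : ℚ) * ((k : ℚ) + 1 + i) := by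
        exact_mod_cast b_succ_left k i
      have h2 : ((b (k + 1) j : ℤ) : ℚ) * ((k : ℚ) + 1 - j) = ((b k j : ℤ) : ℚ) * ((k : ℚ) + 1 + j) := by
        exact_mod_cast b_succ_left k j
      have n1 : ((k : ℚ) + 1 - i) ≠ 0 := by
        intro hh
        have : ((k + 1 : ℕ) : ℚ) = (i : ℚ) := by
          push_cast
          linarith
        exact h.1 (by exact_mod_cast this)
      have n2 : ((k : ℚ) + 1 - j) ≠ 0 := by
        intro hh
        have : ((k + 1 : ℕ) : ℚ) = (j : ℚ) := by
          push_cast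
          linarith
        exact h.2 (by exact_mod_cast this)
      have key : ((b (k + 1) i * b (k + 1) j : ℤ) : ℚ)
          = ((∑ l ∈ range (i + j + 1), b (k + 1) l * E i j l : ℤ) : ℚ) := by
        apply mul_left_cancel₀ (mul_ne_zero n1 n2)
        rw [ht']
        push_cast
        linear_combination ((b (k + 1) j : ℤ) : ℚ) * ((k : ℚ) + 1 - j) * h1
          + ((b k i : ℤ) : ℚ) * ((k : ℚ) + 1 + i) * h2
      exact_mod_cast key

/-- `∑_i C(l,i) C(i,m) x^i = C(l,m) x^m (1+x)^(l-m)` -/
theorem sum_choose_choose (x : ℤ) (l m : ℕ) (h : m ≤ l) :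
    ∑ i ∈ range (l + 1), (l.choose i : ℤ) * (i.choose m : ℤ) * x ^ i
      = (l.choose m : ℤ) * x ^ m * (1 + x) ^ (l - m) := by
  rw [show l + 1 = m + (l - m + 1) by omega, sum_range_add]
  have hz : ∑ i ∈ range m, (l.choose i : ℤ) * (i.choose m : ℤ) * x ^ i = 0 := by
    apply sum_eq_zero
    intro i hi
    rw [mem_range] at hi
    rw [Nat.choose_eq_zero_of_lt hi]
    simp
  rw [hz, zero_add, add_comm 1 x, add_pow, mul_sum]
  refine sum_congr rfl fun i hi => ?_
  rw [mem_range] at hi
  have h1 : l.choose (m + i) * (m + i).choose m = l.choose m * (l - m).choose i := by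
    rw [Nat.choose_mul (by omega), Nat.add_sub_cancel_left]
  have h2 : (l.choose (m + i) : ℤ) * ((m + i).choose m : ℤ) = (l.choose m : ℤ) * ((l - m).choose i : ℤ) := by
    exact_mod_cast h1
  rw [h2, pow_add, one_pow]
  ring

theorem vand2 (i j l : ℕ) :
    ((i + j).choose l : ℤ) = ∑ m ∈ range (l + 1), (i.choose m : ℤ) * (j.choose (l - m) : ℤ) := by
  rw [Nat.add_choose_eq, Finset.Nat.sum_antidiagonal_eq_sum_range_succ
    (fun x y => Nat.choose i x * Nat.choose j y)]
  push_cast
  rfl

theorem sum_sq_choose (l : ℕ) : ∑ m ∈ range (l + 1), (l.choose m : ℤ) ^ 2 = ((2 * l).choose l : ℤ) := by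
  rw [two_mul, vand2]
  refine sum_congr rfl fun m hm => ?_
  rw [mem_range] at hm
  rw [Nat.choose_symm (by omega), sq]

/-- `∑_{i,j} C(l,i) C(l,j) C(i+j,l) x^(i+j) = C(2l,l) (x^2+x)^l` -/
theorem sum_E (x : ℤ) (l : ℕ) :
    ∑ i ∈ range (l + 1), ∑ j ∈ range (l + 1), E i j l * (x ^ i * x ^ j)
      = ((2 * l).choose l : ℤ) * (x ^ 2 + x) ^ l := by
  have h1 : ∀ i j, E i j l * (x ^ i * x ^ j)
      = ∑ m ∈ range (l + 1), ((l.choose i : ℤ) * (i.choose m : ℤ) * x ^ i)
        * ((l.choose j : ℤ) * (j.choose (l - m) : ℤ) * x ^ j) := by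
    intro i j
    unfold E
    rw [vand2, mul_sum, sum_mul]
    refine sum_congr rfl fun m _ => ?_
    ring
  simp_rw [h1]
  have h2 : ∑ i ∈ range (l + 1), ∑ j ∈ range (l + 1), ∑ m ∈ range (l + 1),
      ((l.choose i : ℤ) * (i.choose m : ℤ) * x ^ i) * ((l.choose j : ℤ) * (j.choose (l - m) : ℤ) * x ^ j)
      = ∑ m ∈ range (l + 1), (∑ i ∈ range (l + 1), (l.choose i : ℤ) * (i.choose m : ℤ) * x ^ i)
        * (∑ j ∈ range (l + 1), (l.choose j : ℤ) * (j.choose (l - m) : ℤ) * x ^ j) := by
    simp_rw [sum_mul_sum]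
    rw [sum_congr rfl (fun i _ => sum_comm), sum_comm]
  rw [h2, ← sum_sq_choose, sum_mul]
  refine sum_congr rfl fun m hm => ?_
  rw [mem_range] at hm
  rw [sum_choose_choose x l m (by omega), sum_choose_choose x l (l - m) (by omega),
    Nat.choose_symm (by omega), show l - (l - m) = m by omega]
  have e1 : (x ^ 2 + x) ^ l = x ^ m * x ^ (l - m) * ((1 + x) ^ (l - m) * (1 + x) ^ m) := by
    rw [← pow_add, ← pow_add, show m + (l - m) = l by omega, show l - m + m = l by omega, ← mul_pow]
    congr 1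
    ring
  rw [e1]
  ring

/-- Delannoy polynomial -/
def D (k : ℕ) (x : ℤ) : ℤ := ∑ l ∈ range (k + 1), b k l * x ^ l

theorem D_eq {k N : ℕ} (h : k < N) (x : ℤ) : D k x = ∑ l ∈ range N, b k l * x ^ l := by
  unfold D
  apply sum_subset (range_subset_range.2 h)
  intro l _ hl
  rw [mem_range, not_lt] at hl
  rw [b_zero_of_lt (by omega), zero_mul]

/-- products of two expansions in the basis -/
theorem mul_expand (k N : ℕ) (hk : k < N) (u v : ℕ → ℤ) :
    (∑ i ∈ range N, b k i * u i) * (∑ j ∈ range N, b k j * v j)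
      = ∑ l ∈ range N, b k l * ∑ i ∈ range N, ∑ j ∈ range N, E i j l * (u i * v j) := by
  have h1 : ∀ i j, b k i * b k j = ∑ l ∈ range N, b k l * E i j l := by
    intro i j
    rw [b_mul]
    rcases Nat.le_total N (i + j + 1) with h | h
    · symm
      apply sum_subset (range_subset_range.2 h)
      intro l _ hl
      rw [mem_range, not_lt] at hl
      rw [b_zero_of_lt (by omega), zero_mul]
    · apply sum_subset (range_subset_range.2 h)
      intro l _ hl
      rw [mem_range, not_lt] at hl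
      unfold E
      rw [Nat.choose_eq_zero_of_lt (show i + j < l by omega)]
      simp
  rw [sum_mul_sum]
  have h2 : ∀ i j, b k i * u i * (b k j * v j) = ∑ l ∈ range N, b k l * (E i j l * (u i * v j)) := by
    intro i j
    have : b k i * u i * (b k j * v j) = (b k i * b k j) * (u i * v j) := by ring
    rw [this, h1, sum_mul]
    refine sum_congr rfl fun l _ => ?_
    ring
  simp_rw [h2]
  have h3 : ∀ i, ∑ j ∈ range N, ∑ l ∈ range N, b k l * (E i j l * (u i * v j))
      = ∑ l ∈ range N, ∑ j ∈ range N, b k l * (E i j l * (u i * v j)) := fun i => sum_comm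
  simp_rw [h3]
  rw [sum_comm]
  refine sum_congr rfl fun l _ => ?_
  rw [mul_sum]
  refine sum_congr rfl fun i _ => ?_
  rw [mul_sum]

theorem D_sq {k N : ℕ} (h : k < N) (x : ℤ) :
    D k x ^ 2 = ∑ l ∈ range N, b k l * (((2 * l).choose l : ℤ) * (x ^ 2 + x) ^ l) := by
  rw [sq, D_eq h, mul_expand k N h]
  refine sum_congr rfl fun l hl => ?_
  rw [mem_range] at hl
  congr 1
  rw [← sum_E]
  symm
  apply sum_subset_zero_on_sdiff (range_subset_range.2 (by omega))
  · intro i hi
    rw [mem_sdiff, mem_range, mem_range, not_lt] at hi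
    apply sum_eq_zero
    intro j _
    unfold E
    rw [Nat.choose_eq_zero_of_lt (show l < i by omega)]
    simp
  · intro i _
    apply sum_subset (range_subset_range.2 (by omega))
    intro j _ hj
    rw [mem_range, not_lt] at hj
    unfold E
    rw [Nat.choose_eq_zero_of_lt (show l < j by omega)]
    simp

/-- alternating weighted sum -/
theorem alt_sum (n l : ℕ) :
    ∑ k ∈ range (n + 1), (-1 : ℤ) ^ k * (2 * k + 1) * b k l
      = (-1) ^ n * (((n : ℤ) + 1) * ((n.choose l : ℤ) * ((n + 1 + l).choose l : ℤ))) := by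
  induction n with
  | zero =>
    rw [zero_add, sum_range_one]
    rcases Nat.eq_zero_or_pos l with rfl | hl
    · simp [b]
    · rw [b_zero_of_lt hl, Nat.choose_eq_zero_of_lt hl]
      simp
  | succ n ih =>
    rw [sum_range_succ, ih]
    have h1 := choose_succ_mul n l
    have h2 := choose_succ_mul (n + 1 + l) l
    push_cast at h2
    rw [show n + 1 + l + 1 = n + 1 + 1 + l by ring] at h2
    unfold b
    push_cast
    rw [pow_succ]
    linear_combination (-(-1 : ℤ) ^ n * ((n + 1 + l).choose l : ℤ)) * h1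
      + ((-1 : ℤ) ^ n * ((n + 1).choose l : ℤ)) * h2

end Pool.Agent.Q33.Del
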