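import Pool.Agent.Q33.Del.Basic

/-! Two sums with the same recurrence:
`∑ C(N,i) C(2i,i) C(2N-2i,N-i) = ∑ (-4)^(N-k) C(2k,k)^2 C(k,N-k)`. -/

namespace Pool.Agent.Q33.Del

open Finset

/-- central binomials, rational -/
def c (n : ℕ) : ℚ := (((2 * n).choose n : ℕ) : ℚ)

theorem c_succ (n : ℕ) : ((n : ℚ) + 1) * c (n + 1) = 2 * (2 * n + 1) * c n := by
  have := Nat.succ_mul_centralBinom_succ n
  rw [Nat.centralBinom_eq_two_mul_choose, Nat.centralBinom_eq_two_mul_choose] at this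
  unfold c
  exact_mod_cast this

/-- summand of `A` -/
def F (n i : ℕ) : ℚ := ((n.choose i : ℕ) : ℚ) * c i * c (n - i)

theorem F_zero {n i : ℕ} (h : n < i) : F n i = 0 := by
  unfold F
  rw [Nat.choose_eq_zero_of_lt h]
  simp

theorem F_rel1 (n i : ℕ) :
    F n i * (2 * ((n : ℚ) + 1) * (2 * ((n : ℚ) - i) + 1)) = F (n + 1) i * ((n : ℚ) + 1 - i) ^ 2 := by
  rcases Nat.lt_or_ge n i with h | h
  · rw [F_zero h, zero_mul]
    rcases Nat.lt_or_ge (n + 1) i with h' | h'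
    · rw [F_zero h', zero_mul]
    · have : i = n + 1 := by omega
      subst this
      push_cast
      ring
  · obtain ⟨m, rfl⟩ := Nat.exists_eq_add_of_le h
    have h1 : (((i + m + 1).choose i : ℕ) : ℚ) * (((i + m : ℕ) : ℚ) + 1 - i)
        = (((i + m).choose i : ℕ) : ℚ) * (((i + m : ℕ) : ℚ) + 1) := by
      have := choose_succ_mul (i + m) i
      exact_mod_cast this
    have h2 := c_succ m
    unfold F
    rw [show i + m - i = m by omega, show i + m + 1 - i = m + 1 by omega]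
    push_cast at h1 ⊢
    have h1' : (((i + m + 1).choose i : ℕ) : ℚ) * ((m : ℚ) + 1)
        = (((i + m).choose i : ℕ) : ℚ) * ((i : ℚ) + m + 1) := by
      linear_combination h1
    linear_combination (-((((i + m + 1).choose i : ℕ) : ℚ) * c i * ((m : ℚ) + 1))) * h2
      - (2 * (2 * (m : ℚ) + 1) * c m * c i) * h1'

theorem F_rel2 (n i : ℕ) (h : i ≤ n) :
    ((i : ℚ) + 1) ^ 2 * (2 * ((n : ℚ) - i) - 1) * F n (i + 1)
      = F n i * (2 * i + 1) * ((n : ℚ) - i) ^ 2 := by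
  rcases Nat.lt_or_ge i n with h' | h'
  · obtain ⟨m, rfl⟩ := Nat.exists_eq_add_of_lt h'
    have h1 : (((i + m + 1).choose (i + 1) : ℕ) : ℚ) * ((i : ℚ) + 1)
        = (((i + m + 1).choose i : ℕ) : ℚ) * (((i + m + 1 : ℕ) : ℚ) - i) := by
      have := choose_mul_succ_right (i + m + 1) i
      exact_mod_cast this
    have h2 := c_succ m
    have h3 := c_succ i
    unfold F
    rw [show i + m + 1 - i = m + 1 by omega, show i + m + 1 - (i + 1) = m by omega]
    push_cast at h1 ⊢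
    have h1' : (((i + m + 1).choose (i + 1) : ℕ) : ℚ) * ((i : ℚ) + 1)
        = (((i + m + 1).choose i : ℕ) : ℚ) * ((m : ℚ) + 1) := by
      linear_combination h1
    linear_combination ((i : ℚ) + 1) * (2 * (m : ℚ) + 1) * c (i + 1) * c m * h1'
      + ((((i + m + 1).choose i : ℕ) : ℚ) * ((m : ℚ) + 1) * (2 * (m : ℚ) + 1) * c m) * h3
      - ((((i + m + 1).choose i : ℕ) : ℚ) * ((m : ℚ) + 1) * (2 * (i : ℚ) + 1) * c i) * h2
  · have : i = n := by omega
    subst this
    rw [F_zero (Nat.lt_succ_self i)]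
    ring

/-- certificate -/
def G (N i : ℕ) : ℚ :=
  (i : ℚ) ^ 2 * (-(2 * (N : ℚ) + 1) * (N + 2) + 2 * (N + 1) * i) * F (N + 2) i
    / (((N : ℚ) + 2) * (2 * ((N : ℚ) - i) + 3))

theorem odd_ne (N i : ℕ) (a : ℤ) : (2 * ((N : ℚ) - i) + (2 * a + 1)) ≠ 0 := by
  intro h
  have h' : (((2 * ((N : ℤ) - i) + (2 * a + 1) : ℤ)) : ℚ) = 0 := by
    push_cast
    linarith
  have h'' : (2 * ((N : ℤ) - i) + (2 * a + 1) : ℤ) = 0 := by exact_mod_cast h'
  omega

theorem tele_A (N m : ℕ) (hm : m ≤ N + 3) :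
    ∑ i ∈ range m, (((N : ℚ) + 2) ^ 2 * F (N + 2) i - 4 * (3 * (N : ℚ) ^ 2 + 9 * N + 7) * F (N + 1) i
      + 32 * ((N : ℚ) + 1) ^ 2 * F N i) = G N m := by
  induction m with
  | zero => simp [G]
  | succ m ih =>
    rw [sum_range_succ, ih (by omega)]
    have r0 := F_rel1 N m
    have r1 := F_rel1 (N + 1) m
    have r2 := F_rel2 (N + 2) m (by omega)
    rw [show N + 1 + 1 = N + 2 by ring] at r1
    push_cast at r1 r2
    have n1 : (2 * ((N : ℚ) - m) + 1) ≠ 0 := by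
      have := odd_ne N m 0
      push_cast at this
      intro h
      apply this
      linarith
    have n3 : (2 * ((N : ℚ) - m) + 3) ≠ 0 := by
      have := odd_ne N m 1
      push_cast at this
      intro h
      apply this
      linarith
    have p1 : ((N : ℚ) + 1) ≠ 0 := by positivity
    have p2 : ((N : ℚ) + 2) ≠ 0 := by positivity
    have pm : ((m : ℚ) + 1) ≠ 0 := by positivity
    have e1 : F (N + 1) m = F (N + 2) m * ((N : ℚ) + 2 - m) ^ 2 / (2 * ((N : ℚ) + 2) * (2 * ((N : ℚ) - m) + 3)) := by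
      rw [eq_div_iff (mul_ne_zero (mul_ne_zero two_ne_zero p2) n3)]
      linear_combination r1
    have e0 : F N m = F (N + 1) m * ((N : ℚ) + 1 - m) ^ 2 / (2 * ((N : ℚ) + 1) * (2 * ((N : ℚ) - m) + 1)) := by
      rw [eq_div_iff (mul_ne_zero (mul_ne_zero two_ne_zero p1) n1)]
      linear_combination r0
    have e2 : F (N + 2) (m + 1) = F (N + 2) m * (2 * m + 1) * ((N : ℚ) + 2 - m) ^ 2
        / (((m : ℚ) + 1) ^ 2 * (2 * ((N : ℚ) - m) + 3)) := by
      rw [eq_div_iff (mul_ne_zero (pow_ne_zero 2 pm) n3)]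
      linear_combination r2
    unfold G
    rw [e0, e1, e2]
    push_cast
    have n1' : (2 * ((N : ℚ) - (m + 1)) + 3) ≠ 0 := by
      intro h
      apply n1
      linarith
    field_simp
    ring

/-- `A N = ∑ C(N,i) C(2i,i) C(2N-2i,N-i)` -/
def A (N : ℕ) : ℚ := ∑ i ∈ range (N + 1), F N i

theorem A_rec (N : ℕ) :
    ((N : ℚ) + 2) ^ 2 * A (N + 2) - 4 * (3 * (N : ℚ) ^ 2 + 9 * N + 7) * A (N + 1)
      + 32 * ((N : ℚ) + 1) ^ 2 * A N = 0 := by
  have h := tele_A N (N + 3) le_rfl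
  have hG : G N (N + 3) = 0 := by
    unfold G
    rw [F_zero (by omega)]
    simp
  rw [hG, sum_add_distrib, sum_sub_distrib, ← mul_sum, ← mul_sum, ← mul_sum] at h
  have h1 : ∑ i ∈ range (N + 3), F (N + 1) i = A (N + 1) := by
    unfold A
    rw [sum_range_succ _ (N + 2), F_zero (by omega), add_zero]
  have h0 : ∑ i ∈ range (N + 3), F N i = A N := by
    unfold A
    rw [sum_range_succ _ (N + 2), F_zero (by omega), add_zero, sum_range_succ _ (N + 1),
      F_zero (by omega), add_zero]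
  rw [h1, h0] at h
  exact h

/-- summand of `B` -/
def g (N k : ℕ) : ℚ := (-4) ^ (N - k) * c k ^ 2 * ((k.choose (N - k) : ℕ) : ℚ)

theorem g_rel1 (N k : ℕ) (h : k ≤ N) :
    ((N : ℚ) + 1 - k) * g (N + 1) k = -4 * (2 * (k : ℚ) - N) * g N k := by
  obtain ⟨m, rfl⟩ := Nat.exists_eq_add_of_le h
  have h1 : ((k.choose (m + 1) : ℕ) : ℚ) * ((m : ℚ) + 1) = ((k.choose m : ℕ) : ℚ) * ((k : ℚ) - m) := by
    have := choose_mul_succ_right k m
    exact_mod_cast this
  unfold g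
  rw [show k + m + 1 - k = m + 1 by omega, show k + m - k = m by omega, pow_succ]
  push_cast
  linear_combination (-4) ^ m * (-4) * c k ^ 2 * h1

theorem g_rel2 (N k : ℕ) (h : k ≤ N) :
    ((k : ℚ) + 1) * ((N : ℚ) + 1 - k) * g (N + 2) (k + 1) = -16 * (2 * (k : ℚ) + 1) ^ 2 * g N k := by
  obtain ⟨m, rfl⟩ := Nat.exists_eq_add_of_le h
  have h1 : (((k + 1).choose (m + 1) : ℕ) : ℚ) * ((m : ℚ) + 1) = ((k.choose m : ℕ) : ℚ) * ((k : ℚ) + 1) := by
    have := Nat.add_one_mul_choose_eq k m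
    have h' : (((k + 1) * k.choose m : ℕ) : ℚ) = (((k + 1).choose (m + 1) * (m + 1) : ℕ) : ℚ) := by
      exact_mod_cast this
    push_cast at h'
    linear_combination -h'
  have h2 := c_succ k
  unfold g
  rw [show k + m + 2 - (k + 1) = m + 1 by omega, show k + m - k = m by omega, pow_succ]
  push_cast
  have p : ((k : ℚ) + 1) ≠ 0 := by positivity
  apply mul_left_cancel₀ p
  linear_combination (-4) ^ m * (-4) * (((k : ℚ) + 1) * c (k + 1)) ^ 2 * h1
    + (-4) ^ m * (-4) * ((k.choose m : ℕ) : ℚ) * ((k : ℚ) + 1)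
      * (((k : ℚ) + 1) * c (k + 1) + 2 * (2 * k + 1) * c k) * h2

/-- `B N = ∑ (-4)^(N-k) C(2k,k)^2 C(k,N-k)` -/
def B (N : ℕ) : ℚ := ∑ k ∈ range (N + 1), g N k

theorem tele_B (N m : ℕ) (hm : m ≤ N + 1) :
    ∑ k ∈ range m, (((N : ℚ) + 2) ^ 2 * g (N + 2) k - 4 * (3 * (N : ℚ) ^ 2 + 9 * N + 7) * g (N + 1) k
      + 32 * ((N : ℚ) + 1) ^ 2 * g N k) = -((N : ℚ) + 2) * (m * g (N + 2) m) := by
  induction m with
  | zero => simp
  | succ m ih =>
    rw [sum_range_succ, ih (by omega)]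
    have r1 := g_rel1 N m (by omega)
    have r2 := g_rel1 (N + 1) m (by omega)
    have r3 := g_rel2 N m (by omega)
    rw [show N + 1 + 1 = N + 2 by ring] at r2
    push_cast at r2
    have hle : (m : ℚ) ≤ N := by
      have : m ≤ N := by omega
      exact_mod_cast this
    have n1 : ((N : ℚ) + 1 - m) ≠ 0 := by
      intro h
      linarith
    have n2 : ((N : ℚ) + 2 - m) ≠ 0 := by
      intro h
      linarith
    have pm : ((m : ℚ) + 1) ≠ 0 := by positivity
    have e1 : g (N + 1) m = -4 * (2 * (m : ℚ) - N) * g N m / ((N : ℚ) + 1 - m) := by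
      rw [eq_div_iff n1]
      linear_combination r1
    have e2 : g (N + 2) m = -4 * (2 * (m : ℚ) - (N + 1)) * g (N + 1) m / ((N : ℚ) + 2 - m) := by
      rw [eq_div_iff n2]
      linear_combination r2
    have e3 : g (N + 2) (m + 1) = -16 * (2 * (m : ℚ) + 1) ^ 2 * g N m / (((m : ℚ) + 1) * ((N : ℚ) + 1 - m)) := by
      rw [eq_div_iff (mul_ne_zero pm n1)]
      linear_combination r3
    rw [e3, e2, e1]
    push_cast
    field_simp
    ring

theorem B_rec (N : ℕ) :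
    ((N : ℚ) + 2) ^ 2 * B (N + 2) - 4 * (3 * (N : ℚ) ^ 2 + 9 * N + 7) * B (N + 1)
      + 32 * ((N : ℚ) + 1) ^ 2 * B N = 0 := by
  have h := tele_B N (N + 1) le_rfl
  rw [sum_add_distrib, sum_sub_distrib, ← mul_sum, ← mul_sum, ← mul_sum] at h
  have h1 : B (N + 1) = ∑ k ∈ range (N + 1), g (N + 1) k + g (N + 1) (N + 1) := by
    unfold B
    rw [sum_range_succ]
  have h2 : B (N + 2) = ∑ k ∈ range (N + 1), g (N + 2) k + g (N + 2) (N + 1) + g (N + 2) (N + 2) := by
    unfold B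
    rw [sum_range_succ, sum_range_succ]
  have h0 : B N = ∑ k ∈ range (N + 1), g N k := rfl
  have g1 : g (N + 1) (N + 1) = c (N + 1) ^ 2 := by
    unfold g
    simp
  have g2 : g (N + 2) (N + 2) = c (N + 2) ^ 2 := by
    unfold g
    simp
  have g3 : g (N + 2) (N + 1) = -4 * c (N + 1) ^ 2 * ((N : ℚ) + 1) := by
    unfold g
    rw [show N + 2 - (N + 1) = 1 by omega, Nat.choose_one_right]
    push_cast
    ring
  have hc := c_succ (N + 1)
  rw [show N + 1 + 1 = N + 2 by ring] at hc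
  push_cast at hc h
  rw [h2, h1, h0, g1, g2]
  rw [g3] at h ⊢
  linear_combination h + (((N : ℚ) + 2) * c (N + 2) + 2 * (2 * (N + 1) + 1) * c (N + 1)) * hc

theorem A_eq_B (N : ℕ) : A N = B N ∧ A (N + 1) = B (N + 1) := by
  induction N with
  | zero =>
    refine ⟨?_, ?_⟩
    · simp [A, B, F, g, c]
    · simp [A, B, F, g, c, sum_range_succ]
      norm_num
  | succ N ih =>
    refine ⟨ih.2, ?_⟩
    have ha := A_rec N
    have hb := B_rec N
    rw [ih.1, ih.2] at ha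
    have p : ((N : ℚ) + 2) ^ 2 ≠ 0 := by positivity
    apply mul_left_cancel₀ p
    rw [show N + 1 + 1 = N + 2 by ring]
    linear_combination ha - hb

end Pool.Agent.Q33.Del
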